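import Pool.Agent.Helper95.CU.CohDefs
import Pool.Agent.Helper68.HM.Delta

/-!
# Project CU: the countable chain condition of the Cohen algebra
-/

set_option autoImplicit false

namespace Pool.Agent.Helper95.CU

open Pool.Agent.Helper33.HM Cardinal Set

universe u

open Classical in
/-- The union of two conditions (the first one is preferred). -/
noncomputable def h28_un {Λ : Type u} (p q : Cnd Λ) : Cnd Λ where
  f e n := if p.f e n = none then q.f e n else p.f e n
  fin := (p.fin.union q.fin).subset (by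
    rintro ⟨e, n⟩ h
    by_cases hp : p.f e n = none
    · right; simpa [hp] using h
    · left; exact hp)

theorem h28_compat {Λ : Type u} {p q : Cnd Λ}
    (h : ∀ e n, p.f e n ≠ none → q.f e n ≠ none → p.f e n = q.f e n) :
    ∃ r : Cnd Λ, r ≤ p ∧ r ≤ q := by
  classical
  refine ⟨h28_un p q, ?_, ?_⟩
  · intro e n b hb
    show (if p.f e n = none then q.f e n else p.f e n) = some b
    rw [hb]
    simp
  · intro e n b hb
    show (if p.f e n = none then q.f e n else p.f e n) = some b
    by_cases hp : p.f e n = none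
    · rw [if_pos hp, hb]
    · rw [if_neg hp, h e n hp (by rw [hb]; simp), hb]

theorem h28_cnd_ccc {Λ : Type u} (A : Set (Cnd Λ))
    (h : ∀ p ∈ A, ∀ q ∈ A, p ≠ q → ¬ ∃ r : Cnd Λ, r ≤ p ∧ r ≤ q) : A.Countable := by
  classical
  by_contra hA
  have hun : ¬ (Set.univ : Set A).Countable := by
    rw [Set.countable_univ_iff]
    exact hA
  obtain ⟨J, hJ, R, hR⟩ := Cond.exists_delta (fun p : A => p.1.fin.toFinset) hun
  let st : A → R → Option Bool := fun p x => p.1.f x.1.1 x.1.2
  apply hJ
  have hinj : Set.InjOn st J := by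
    intro p hp q hq hpq
    by_contra hne
    have hne' : p.1 ≠ q.1 := fun h => hne (Subtype.ext h)
    refine h p.1 p.2 q.1 q.2 hne' (h28_compat ?_)
    intro e n h1 h2
    have hi : (e, n) ∈ R := by
      rw [← hR p hp q hq hne]
      exact Finset.mem_inter.2 ⟨p.1.fin.mem_toFinset.2 h1, q.1.fin.mem_toFinset.2 h2⟩
    exact congrFun hpq ⟨(e, n), hi⟩
  exact Set.MapsTo.countable_of_injOn (t := Set.univ) (fun _ _ => trivial) hinj
    (Set.countable_univ)

theorem h28_ro_ccc {P : Type u} [Preorder P] (h : ∀ A : Set P,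
    (∀ p ∈ A, ∀ q ∈ A, p ≠ q → ¬ ∃ r : P, r ≤ p ∧ r ≤ q) → A.Countable) : CCC (RO P) := by
  classical
  intro t ht0 ht
  choose p hp using fun U : t => RO.ne_bot_iff.1 (ht0 U.1 U.2)
  have hinj : Function.Injective p := by
    intro U V hUV
    by_contra hne
    have hd : Disjoint U.1 V.1 := ht U.2 V.2 (fun h => hne (Subtype.ext h))
    have : p U ∈ (U.1 ⊓ V.1 : RO P) := RO.mem_inf.2 ⟨hp U, hUV ▸ hp V⟩
    rw [disjoint_iff.1 hd] at this
    exact RO.not_mem_bot _ this
  have hc : (Set.range p).Countable := by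
    apply h
    rintro _ ⟨U, rfl⟩ _ ⟨V, rfl⟩ hne ⟨r, hrU, hrV⟩
    have hUV : (U : RO P) ≠ V := fun h => hne (congrArg p (Subtype.ext h))
    have hd : Disjoint U.1 V.1 := ht U.2 V.2 hUV
    have : r ∈ (U.1 ⊓ V.1 : RO P) :=
      RO.mem_inf.2 ⟨RO.mem_lower hrU (hp U), RO.mem_lower hrV (hp V)⟩
    rw [disjoint_iff.1 hd] at this
    exact RO.not_mem_bot _ this
  have : Countable t := by
    have hcr : Countable (Set.range p) := hc
    exact (Equiv.ofInjective p hinj).injective.countable
  exact this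

theorem ccc_cnd (Λ : Type u) : CCC (RO (Cnd Λ)) := h28_ro_ccc h28_cnd_ccc

end Pool.Agent.Helper95.CU
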